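import Pool.Agent.W761.CB.Stms

/-!
# Project CB, part HAT: the hat functions form a partition of unity
-/

set_option autoImplicit false

open MeasureTheory
open scoped ENNReal

namespace Pool.Agent.W19.CB

open Pool.Agent.W761.CB

noncomputable section

lemma ht_nonneg (L l : ℝ) (y : AddCircle L) : 0 ≤ ht L l y := by
  unfold ht
  split_ifs
  · exact le_max_left _ _
  · exact zero_le_one

lemma ht_le_one (L l : ℝ) (hl : 0 < l) (y : AddCircle L) : ht L l y ≤ 1 := by
  unfold ht
  split_ifs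
  · refine max_le zero_le_one ?_
    have : 0 ≤ ‖y‖ / l := div_nonneg (norm_nonneg _) hl.le
    linarith
  · exact le_rfl

lemma ht_cont (L l : ℝ) : Continuous (ht L l) := by
  unfold ht
  split_ifs
  · exact continuous_const.max (continuous_const.sub (continuous_norm.div_const _))
  · exact continuous_const

lemma norm_small (L d : ℝ) (hL : 0 < L) (h : |d| ≤ L / 2) : ‖(d : AddCircle L)‖ = |d| := by
  rw [AddCircle.norm_coe_eq_abs_iff L hL.ne', abs_of_pos hL]
  exact h

lemma norm_big (L l d : ℝ) (hL : 0 < L) (h1 : l ≤ d) (h2 : d ≤ L - l) :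
    l ≤ ‖(d : AddCircle L)‖ := by
  rw [AddCircle.norm_eq]
  generalize round (L⁻¹ * d) = k
  rcases le_or_gt k 0 with hk | hk
  · have hk' : (k : ℝ) ≤ 0 := by exact_mod_cast hk
    have : (k : ℝ) * L ≤ 0 := mul_nonpos_of_nonpos_of_nonneg hk' hL.le
    exact le_trans (by linarith) (le_abs_self _)
  · have hk' : (1 : ℝ) ≤ k := by exact_mod_cast hk
    have : L ≤ (k : ℝ) * L := by nlinarith
    rw [abs_sub_comm]
    exact le_trans (by linarith) (le_abs_self _)

/-- partition of unity near the origin -/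
lemma sum_base (L l θ : ℝ) (m : ℕ) (hL : 0 < L) (hl : 0 < l) (hm : L = (m + 2 : ℕ) * l)
    (h0 : 0 ≤ θ) (h1 : θ < 1) :
    ∑ r : Fin (m + 2), max 0 (1 - ‖(((θ - (r : ℕ)) * l : ℝ) : AddCircle L)‖ / l) = 1 := by
  have h2l : 2 * l ≤ L := by
    rw [hm]
    push_cast
    have : (0 : ℝ) ≤ m := Nat.cast_nonneg m
    nlinarith
  rw [Fin.sum_univ_succ, Fin.sum_univ_succ]
  have e0 : ‖(((θ - ((0 : Fin (m + 2)) : ℕ)) * l : ℝ) : AddCircle L)‖ = θ * l := by
    rw [norm_small L _ hL]
    · simp only [Fin.val_zero, Nat.cast_zero, sub_zero]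
      exact abs_of_nonneg (mul_nonneg h0 hl.le)
    · simp only [Fin.val_zero, Nat.cast_zero, sub_zero]
      rw [abs_of_nonneg (mul_nonneg h0 hl.le)]
      nlinarith
  have e1 : ‖(((θ - ((Fin.succ (0 : Fin (m + 1))) : ℕ)) * l : ℝ) : AddCircle L)‖ =
      (1 - θ) * l := by
    have : (θ - ((Fin.succ (0 : Fin (m + 1)) : Fin (m + 2)) : ℕ)) * l = - ((1 - θ) * l) := by
      simp only [Fin.val_succ, Fin.val_zero, zero_add, Nat.cast_one]
      ring
    rw [this, norm_small L _ hL]
    · rw [abs_neg]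
      exact abs_of_nonneg (mul_nonneg (by linarith) hl.le)
    · rw [abs_neg, abs_of_nonneg (mul_nonneg (by linarith) hl.le)]
      nlinarith
  have e2 : ∀ r : Fin m,
      max 0 (1 - ‖(((θ - ((r.succ.succ : Fin (m + 2)) : ℕ)) * l : ℝ) : AddCircle L)‖ / l) = 0 := by
    intro r
    refine max_eq_left ?_
    have hr : ((r : ℕ) : ℝ) + 1 ≤ m := by exact_mod_cast r.2
    have hr0 : (0 : ℝ) ≤ ((r : ℕ) : ℝ) := Nat.cast_nonneg _
    have : l ≤ ‖(((θ - ((r.succ.succ : Fin (m + 2)) : ℕ)) * l : ℝ) : AddCircle L)‖ := by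
      have e : ((θ - ((r.succ.succ : Fin (m + 2)) : ℕ)) * l : ℝ) =
          - ((((r : ℕ) : ℝ) + 2 - θ) * l) := by
        simp only [Fin.val_succ]
        push_cast
        ring
      rw [e, AddCircle.coe_neg, norm_neg]
      apply norm_big L l _ hL
      · nlinarith
      · rw [hm]
        push_cast
        nlinarith
    have h3 : 1 ≤ ‖(((θ - ((r.succ.succ : Fin (m + 2)) : ℕ)) * l : ℝ) : AddCircle L)‖ / l := by
      rwa [le_div_iff₀ hl, one_mul]
    linarith
  rw [Finset.sum_eq_zero (fun r _ => e2 r), e0, e1, mul_div_assoc, div_self hl.ne', mul_one,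
    mul_div_assoc, div_self hl.ne', mul_one, add_zero, max_eq_right (by linarith),
    max_eq_right (by linarith)]
  ring

lemma coe_mod (L l : ℝ) (m a : ℕ) (hm : L = m * l) :
    ((((a % m : ℕ) : ℝ) * l : ℝ) : AddCircle L) = (((a : ℝ) * l : ℝ) : AddCircle L) := by
  have h : (a : ℝ) * l = ((a % m : ℕ) : ℝ) * l + ((a / m : ℕ) : ℝ) * L := by
    conv_lhs => rw [← Nat.mod_add_div a m]
    rw [hm]
    push_cast
    ring
  rw [h, AddCircle.coe_add]
  have : ((((a / m : ℕ) : ℝ) * L : ℝ) : AddCircle L) = 0 := by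
    rw [AddCircle.coe_eq_zero_iff]
    refine ⟨((a / m : ℕ) : ℤ), ?_⟩
    rw [zsmul_eq_mul, Int.cast_natCast]
  rw [this, add_zero]

lemma sum_ht (L l : ℝ) (m : ℕ) (hL : 0 < L) (h1 : 1 ≤ m) (hm : L = m * l) (x : AddCircle L) :
    ∑ j : Fin m, ht L l (x - ((((j : ℕ) : ℝ) * l : ℝ) : AddCircle L)) = 1 := by
  have hm0 : (0 : ℝ) < m := by exact_mod_cast h1
  have hl : 0 < l := by
    by_contra h
    have : (m : ℝ) * l ≤ 0 := mul_nonpos_of_nonneg_of_nonpos hm0.le (not_lt.mp h)
    linarith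
  rcases Nat.lt_or_ge m 2 with h2 | h2
  · have : m = 1 := by omega
    subst this
    have : ¬ l < L := by rw [hm]; simp
    simp [ht, this]
  obtain ⟨m, rfl⟩ : ∃ k, m = k + 2 := ⟨m - 2, by omega⟩
  have hlL : l < L := by
    rw [hm]
    push_cast
    have : (0 : ℝ) ≤ m := Nat.cast_nonneg m
    nlinarith
  have : Fact (0 < L) := ⟨hL⟩
  obtain ⟨t, ht0, rfl⟩ : ∃ t : ℝ, t ∈ Set.Ico 0 (0 + L) ∧ (t : AddCircle L) = x := by
    have := AddCircle.coe_image_Ico_eq L 0
    have hx : x ∈ (Set.univ : Set (AddCircle L)) := Set.mem_univ x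
    rw [← this] at hx
    exact hx
  rw [zero_add] at ht0
  set a : ℕ := ⌊t / l⌋₊ with ha
  have ha1 : (a : ℝ) ≤ t / l := Nat.floor_le (div_nonneg ht0.1 hl.le)
  have ha2 : t / l < a + 1 := Nat.lt_floor_add_one _
  have ham : a < m + 2 := by
    have : (a : ℝ) < ((m + 2 : ℕ) : ℝ) := by
      refine lt_of_le_of_lt ha1 ?_
      rw [div_lt_iff₀ hl, ← hm]
      exact ht0.2
    exact_mod_cast this
  have key := sum_base L l (t / l - a) m hL hl hm (by linarith) (by linarith)
  rw [← key]
  symm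
  refine Fintype.sum_equiv (Equiv.addRight (⟨a, ham⟩ : Fin (m + 2))) _ _ ?_
  intro r
  simp only [ht, hlL, if_true, Equiv.coe_addRight]
  congr 4
  have e1 : (((r + (⟨a, ham⟩ : Fin (m + 2)) : Fin (m + 2)) : ℕ) : ℝ) =
      (((((r : ℕ) + a) % (m + 2) : ℕ)) : ℝ) := by
    rw [Fin.val_add]
  rw [e1, coe_mod L l (m + 2) ((r : ℕ) + a) hm, ← AddCircle.coe_sub]
  congr 1
  push_cast
  field_simp
  ring

theorem hat_proof : S_TF → S_HAT := by
  intro _ n L l hLf m h1 hm
  have hL : 0 < L := hLf.out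
  have hm0 : (0 : ℝ) < m := by exact_mod_cast h1
  have hl : 0 < l := by
    by_contra h
    have : (m : ℝ) * l ≤ 0 := mul_nonpos_of_nonneg_of_nonpos hm0.le (not_lt.mp h)
    linarith
  have hcont : ∀ c : AddCircle L, Continuous fun x : AddCircle L => ht L l (x - c) := by
    intro c
    exact (ht_cont L l).comp (continuous_id.sub continuous_const)
  refine ⟨?_, ?_, ?_, ?_, ?_⟩
  · intro i
    unfold hat
    refine Finset.measurable_prod _ fun c _ => ?_
    exact (hcont _).measurable.comp (measurable_pi_apply c)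
  · intro i x
    unfold hat
    exact ⟨Finset.prod_nonneg fun c _ => ht_nonneg _ _ _,
      Finset.prod_le_one (fun c _ => ht_nonneg _ _ _) fun c _ => ht_le_one _ _ hl _⟩
  · intro x
    unfold hat
    have := Finset.prod_univ_sum (fun _ : Fin n => (Finset.univ : Finset (Fin m)))
      (fun c j => ht L l (x c - ((((j : ℕ) : ℝ) * l : ℝ) : AddCircle L)))
    rw [Fintype.piFinset_univ] at this
    rw [← this]
    exact Finset.prod_eq_one fun c _ => sum_ht L l m hL h1 hm (x c)
  · intro i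
    have hint : ∀ c : AddCircle L, Integrable (fun x : AddCircle L => ht L l (x - c)) := by
      intro c
      exact (hcont c).integrable_of_hasCompactSupport (HasCompactSupport.of_compactSpace _)
    have htr : ∀ c : AddCircle L, ∫ x : AddCircle L, ht L l (x - c) = ∫ x, ht L l x := by
      intro c
      exact integral_sub_right_eq_self _ c
    have hone : ∫ x : AddCircle L, ht L l x = l := by
      have h : ∫ x : AddCircle L, ∑ j : Fin m, ht L l (x - ((((j : ℕ) : ℝ) * l : ℝ) :
          AddCircle L)) = m * ∫ x, ht L l x := by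
        rw [integral_finsetSum _ fun j _ => hint _]
        simp only [htr]
        simp
      simp only [sum_ht L l m hL h1 hm] at h
      have h' : ∫ _ : AddCircle L, (1 : ℝ) = L := by
        rw [integral_const, smul_eq_mul, mul_one, Measure.real, AddCircle.measure_univ,
          ENNReal.toReal_ofReal hL.le]
      rw [h'] at h
      exact (mul_left_cancel₀ hm0.ne' (hm.symm.trans h)).symm
    unfold hat
    rw [integral_fintype_prod_volume_eq_prod (𝕜 := ℝ)
      (f := fun c (y : AddCircle L) => ht L l (y - (((i c : ℝ) * l : ℝ) : AddCircle L)))]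
    simp only [htr, hone]
    simp
  · intro h i x
    subst h
    have : ¬ l < L := by rw [hm]; simp
    simp [hat, ht, this]

end

end Pool.Agent.W19.CB
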